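import Mathlib

/-!
# Almost all Hilbert cubes meet every translate of a set of positive density, often

`A` is a finite abelian group with `N` elements, `w : A → [0, 1]` a weight. All but a small proportion of the `k`-tuples `d` are
such that for every `n` the product of `w` over the cube `n + ε₁ d₁ + ... + ε_k d_k`, `ε_i ∈ {0, 1}`, is small.
-/

set_option autoImplicit false

namespace Pool.MP_7ba156_nt.HC

open Finset

variable {A : Type} [AddCommGroup A] [Fintype A]

/-- one step of the doubling -/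
def step (w : A → ℝ) (a : A) : A → ℝ := fun x => w x * w (x + a)

/-- the mean of the weight -/
noncomputable def mean (w : A → ℝ) : ℝ := (∑ x, w x) / Fintype.card A

open Classical in
/-- the tuples for which the product over some translate of the cube is at least `θ` -/
noncomputable def bad (θ : ℝ) (k : ℕ) (w : A → ℝ) : Finset (Fin k → A) :=
  univ.filter fun d => ∃ n : A, θ ≤ ∏ ε : Fin k → Fin 2, w (n + ∑ i, (ε i : ℕ) • d i)

theorem prod_cube (k : ℕ) (w : A → ℝ) (n : A) (d : Fin (k + 1) → A) :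
    ∏ ε : Fin (k + 1) → Fin 2, w (n + ∑ i, (ε i : ℕ) • d i) =
      ∏ ε : Fin k → Fin 2, step w (d 0) (n + ∑ i, (ε i : ℕ) • Fin.tail d i) := by
  rw [← Fintype.prod_equiv (Fin.consEquiv fun _ => Fin 2) (fun p : Fin 2 × (Fin k → Fin 2) =>
    w (n + ((p.1 : ℕ) • d 0 + ∑ i, (p.2 i : ℕ) • d i.succ))) _ (fun p => by
      rw [Fin.sum_univ_succ]
      rfl), Fintype.prod_prod_type, Fin.prod_univ_two, ← prod_mul_distrib]
  refine prod_congr rfl fun ε _ => ?_
  unfold step
  simp only [Fin.tail]
  congr 2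
  · simp
  · have : ((1 : Fin 2) : ℕ) = 1 := rfl
    rw [this, one_nsmul, add_comm (d 0), add_assoc]

theorem bad_succ (θ : ℝ) (k : ℕ) (w : A → ℝ) : (bad θ (k + 1) w).card ≤ ∑ a : A, (bad θ k (step w a)).card := by
  classical
  rw [card_eq_sum_card_fiberwise (f := fun d : Fin (k + 1) → A => d 0) (t := univ) fun _ _ => by simp]
  refine sum_le_sum fun a _ => ?_
  refine card_le_card_of_injOn (fun d => Fin.tail d) ?_ ?_
  · intro d hd
    have hd' := mem_filter.1 (mem_coe.1 hd)
    obtain ⟨n, hn⟩ := (mem_filter.1 hd'.1).2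
    refine mem_coe.2 (mem_filter.2 ⟨mem_univ _, n, ?_⟩)
    rw [prod_cube, hd'.2] at hn
    exact hn
  · intro d hd e he hde
    have h1 : d 0 = a := (mem_filter.1 (mem_coe.1 hd)).2
    have h2 : e 0 = a := (mem_filter.1 (mem_coe.1 he)).2
    rw [← Fin.cons_self_tail d, ← Fin.cons_self_tail e, h1, h2]
    simp only at hde
    rw [hde]

theorem bad_le_univ (θ : ℝ) (k : ℕ) (w : A → ℝ) : (bad θ k w).card ≤ Fintype.card A ^ k := by
  classical
  refine (card_le_univ _).trans ?_
  simp

theorem sum_shift (w : A → ℝ) (a : A) : ∑ x, w (x + a) = ∑ x, w x :=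
  Fintype.sum_equiv (Equiv.addRight a) _ _ fun _ => rfl

theorem sum_step (w : A → ℝ) : ∑ a : A, ∑ x, step w a x = (∑ x, w x) ^ 2 := by
  unfold step
  rw [sum_comm, sq, sum_mul]
  refine sum_congr rfl fun x _ => ?_
  rw [← mul_sum]
  congr 1
  rw [← sum_shift w x]
  exact sum_congr rfl fun a _ => by rw [add_comm]

/-- weights -/
def IsW (w : A → ℝ) : Prop := ∀ x, 0 ≤ w x ∧ w x ≤ 1

theorem IsW.step {w : A → ℝ} (hw : IsW w) (a : A) : IsW (step w a) := fun x =>
  ⟨mul_nonneg (hw x).1 (hw _).1, mul_le_one₀ (hw x).2 (hw _).1 (hw _).2⟩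

/-- `(N / θ) ^ (2 ^ (-j))` -/
noncomputable def uu (c : ℝ) (j : ℕ) : ℝ := c ^ ((1 / 2 : ℝ) ^ j)

theorem uu_pos {c : ℝ} (hc : 0 < c) (j : ℕ) : 0 < uu c j := Real.rpow_pos_of_pos hc _

theorem uu_sq {c : ℝ} (hc : 0 < c) (j : ℕ) : uu c (j + 1) ^ 2 = uu c j := by
  unfold uu
  rw [← Real.rpow_natCast, ← Real.rpow_mul hc.le]
  congr 1
  push_cast
  ring

/-- **second phase** -/
theorem phase_two (N : ℕ) (hN : Fintype.card A = N) (hN0 : 0 < N) (θ : ℝ) (hθ : 0 < θ) (j : ℕ) :
    ∀ w : A → ℝ, IsW w → ((bad θ j w).card : ℝ) ≤ (N : ℝ) ^ j * (uu (N / θ) j * mean w) := by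
  classical
  have hNR : (0 : ℝ) < N := by exact_mod_cast hN0
  have hc : (0 : ℝ) < N / θ := by positivity
  induction j with
  | zero =>
    intro w hw
    have h2 : uu (N / θ) 0 = N / θ := by simp [uu]
    rw [h2, pow_zero, one_mul, mean, hN]
    have h3 : (N : ℝ) / θ * ((∑ x, w x) / N) = (∑ x, w x) / θ := by field_simp
    rw [h3]
    have hs0 : 0 ≤ ∑ x, w x := sum_nonneg fun x _ => (hw x).1
    rcases (bad θ 0 w).eq_empty_or_nonempty with h | ⟨d, hd⟩
    · rw [h, card_empty, Nat.cast_zero]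
      positivity
    · have h4 : (bad θ 0 w).card ≤ 1 := by
        have := bad_le_univ θ 0 w
        rwa [pow_zero] at this
      have h5 : ((bad θ 0 w).card : ℝ) ≤ 1 := by exact_mod_cast h4
      refine h5.trans ?_
      rw [le_div_iff₀ hθ, one_mul]
      obtain ⟨n, hn⟩ := (mem_filter.1 hd).2
      rw [Fintype.prod_unique] at hn
      refine hn.trans (single_le_sum (f := w) (fun x _ => (hw x).1) (mem_univ _))
  | succ j ih =>
    intro w hw
    have hm0 : 0 ≤ mean w := div_nonneg (sum_nonneg fun x _ => (hw x).1) (by positivity)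
    set t : ℝ := uu (N / θ) (j + 1) * mean w with ht
    have ht0 : 0 ≤ t := mul_nonneg (uu_pos hc _).le hm0
    have h1 : ((bad θ (j + 1) w).card : ℝ) ≤ (N : ℝ) ^ (j + 1) * t ^ 2 := by
      have h2 : ((bad θ (j + 1) w).card : ℝ) ≤ ∑ a : A, ((bad θ j (step w a)).card : ℝ) := by
        exact_mod_cast bad_succ θ j w
      refine h2.trans ((sum_le_sum fun a _ => ih (step w a) (hw.step a)).trans ?_)
      have h3 : ∑ a : A, (N : ℝ) ^ j * (uu (N / θ) j * mean (step w a)) =
          (N : ℝ) ^ j * (uu (N / θ) j * ((∑ a : A, ∑ x, step w a x) / N)) := by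
        unfold mean
        rw [hN, sum_div, mul_sum, mul_sum]
      rw [h3, sum_step, ht, mul_pow, uu_sq hc, mean, hN]
      apply le_of_eq
      rw [pow_succ (N : ℝ) j]
      field_simp
    have h2 : ((bad θ (j + 1) w).card : ℝ) ≤ (N : ℝ) ^ (j + 1) := by
      have := bad_le_univ θ (j + 1) w
      rw [hN] at this
      exact_mod_cast this
    rcases le_total t 1 with h | h
    · refine h1.trans (mul_le_mul_of_nonneg_left ?_ (by positivity))
      nlinarith
    · refine h2.trans ?_
      have : (0 : ℝ) ≤ (N : ℝ) ^ (j + 1) := by positivity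
      nlinarith

theorem mean_step_bounds (N : ℕ) (hN : Fintype.card A = N) (hN0 : 0 < N) (w : A → ℝ) (hw : IsW w) (a : A) :
    mean (step w a) ≤ mean w ∧ 2 * mean w ≤ mean (step w a) + 1 := by
  have hNR : (0 : ℝ) < N := by exact_mod_cast hN0
  unfold mean
  rw [hN]
  constructor
  · refine div_le_div_of_nonneg_right (sum_le_sum fun x _ => ?_) hNR.le
    exact mul_le_of_le_one_right (hw x).1 (hw _).2
  · have h1 : 2 * ∑ x, w x ≤ ∑ x, step w a x + N := by
      have h2 : ∑ x, (w x + w (x + a)) ≤ ∑ x, (step w a x + 1) := by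
        refine sum_le_sum fun x _ => ?_
        unfold step
        nlinarith [(hw x).2, (hw (x + a)).2]
      rw [sum_add_distrib, sum_shift, sum_add_distrib, sum_const, nsmul_eq_mul, card_univ, hN] at h2
      linarith
    have h3 : 2 * ((∑ x, w x) / (N : ℝ)) = (2 * ∑ x, w x) / N := by ring
    have h4 : (∑ x, step w a x) / (N : ℝ) + 1 = (∑ x, step w a x + N) / N := by field_simp
    rw [h3, h4]
    exact div_le_div_of_nonneg_right h1 hNR.le

theorem sum_ratio (N : ℕ) (hN : Fintype.card A = N) (hN0 : 0 < N) (w : A → ℝ) (hw : IsW w) (hm : mean w < 1) :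
    ∑ a : A, mean (step w a) / (1 - mean (step w a)) ≤ N * (mean w / (1 - mean w) / 2) := by
  have hNR : (0 : ℝ) < N := by exact_mod_cast hN0
  set g : ℝ := 1 - mean w with hg
  have hg0 : 0 < g := by linarith
  have h1 : ∀ a : A, mean (step w a) / (1 - mean (step w a)) ≤
      (1 / (2 * g) + (2 * g - 1 + mean (step w a)) / (2 * g ^ 2)) - 1 := by
    intro a
    obtain ⟨h2, h3⟩ := mean_step_bounds N hN hN0 w hw a
    set s : ℝ := mean (step w a) with hs
    have h4 : 0 < 1 - s := by linarith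
    set x : ℝ := 2 * g - 1 + s with hx
    have hx0 : 0 ≤ x := by linarith
    have hxg : x ≤ g := by linarith
    have h5 : s / (1 - s) = 1 / (2 * g - x) - 1 := by
      have e : 1 - s = 2 * g - x := by rw [hx]; ring
      rw [e]
      have e2 : s = 1 - (2 * g - x) := by rw [hx]; ring
      have h6 : 2 * g - x ≠ 0 := by linarith
      rw [e2]
      field_simp
    rw [h5]
    have h6 : 1 / (2 * g - x) ≤ 1 / (2 * g) + x / (2 * g ^ 2) := by
      have e : 1 / (2 * g) + x / (2 * g ^ 2) = (g + x) / (2 * g ^ 2) := by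
        field_simp
      rw [e, div_le_div_iff₀ (by linarith) (by positivity)]
      nlinarith
    linarith
  refine (sum_le_sum fun a _ => h1 a).trans ?_
  have h2 : ∑ a : A, mean (step w a) = N * mean w ^ 2 := by
    unfold mean
    rw [← sum_div, sum_step, hN]
    field_simp
  have e1 : ∀ c : ℝ, ∑ _a : A, c = N * c := by
    intro c
    rw [sum_const, nsmul_eq_mul, card_univ, hN]
  rw [sum_sub_distrib, sum_add_distrib, e1, e1, ← sum_div, sum_add_distrib, e1, h2]
  have h4 : mean w = 1 - g := by rw [hg]; ring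
  rw [h4]
  apply le_of_eq
  field_simp
  ring

/-- **both phases** -/
theorem phase_one (N : ℕ) (hN : Fintype.card A = N) (hN0 : 0 < N) (θ : ℝ) (hθ : 0 < θ) (i j : ℕ) :
    ∀ w : A → ℝ, IsW w → mean w < 1 →
    ((bad θ (i + j) w).card : ℝ) ≤ (N : ℝ) ^ (i + j) * (1 / 2) ^ i * (uu (N / θ) j * (mean w / (1 - mean w))) := by
  have hNR : (0 : ℝ) < N := by exact_mod_cast hN0
  have hc : (0 : ℝ) < N / θ := by positivity
  induction i with
  | zero =>
    intro w hw hm
    rw [zero_add, pow_zero, mul_one]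
    refine (phase_two N hN hN0 θ hθ j w hw).trans ?_
    refine mul_le_mul_of_nonneg_left (mul_le_mul_of_nonneg_left ?_ (uu_pos hc j).le) (by positivity)
    have hm0 : 0 ≤ mean w := div_nonneg (sum_nonneg fun x _ => (hw x).1) (by positivity)
    rw [le_div_iff₀ (by linarith)]
    nlinarith
  | succ i ih =>
    intro w hw hm
    have e : i + 1 + j = (i + j) + 1 := by ring
    rw [e]
    have h2 : ((bad θ (i + j + 1) w).card : ℝ) ≤ ∑ a : A, ((bad θ (i + j) (step w a)).card : ℝ) := by
      exact_mod_cast bad_succ θ (i + j) w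
    refine h2.trans ((sum_le_sum fun a _ =>
      ih (step w a) (hw.step a) (lt_of_le_of_lt (mean_step_bounds N hN hN0 w hw a).1 hm)).trans ?_)
    rw [← mul_sum, ← mul_sum]
    have h3 := sum_ratio N hN hN0 w hw hm
    have h4 : (0 : ℝ) ≤ (N : ℝ) ^ (i + j) * (1 / 2) ^ i := by positivity
    have h5 := (uu_pos hc j).le
    calc (N : ℝ) ^ (i + j) * (1 / 2) ^ i * (uu (N / θ) j * ∑ a : A, mean (step w a) / (1 - mean (step w a)))
        ≤ (N : ℝ) ^ (i + j) * (1 / 2) ^ i * (uu (N / θ) j * (N * (mean w / (1 - mean w) / 2))) :=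
          mul_le_mul_of_nonneg_left (mul_le_mul_of_nonneg_left h3 h5) h4
      _ = _ := by rw [pow_succ, pow_succ (1 / 2 : ℝ)]; ring

theorem exists_pow (x : ℝ) (hx : 1 ≤ x) : ∃ j : ℕ, x ≤ 2 ^ j ∧ (2 : ℝ) ^ j < 2 * x := by
  obtain ⟨n, hn⟩ := pow_unbounded_of_one_lt x (by norm_num : (1 : ℝ) < 2)
  classical
  set P : ℕ → Prop := fun j => x ≤ 2 ^ j with hP
  have hex : ∃ j, P j := ⟨n, hn.le⟩
  refine ⟨Nat.find hex, Nat.find_spec hex, ?_⟩
  rcases Nat.eq_zero_or_pos (Nat.find hex) with h | h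
  · rw [h, pow_zero]
    linarith
  · have h1 := Nat.find_min hex (m := Nat.find hex - 1) (by omega)
    simp only [hP, not_le] at h1
    have e : (2 : ℝ) ^ (Nat.find hex) = 2 * 2 ^ (Nat.find hex - 1) := by
      rw [← pow_succ']
      congr 1
      omega
    rw [e]
    linarith

open Classical in
/-- **Almost all Hilbert cubes meet every translate of `G` at least `M` times.** `G` has density `≥ γ`. -/
theorem few_card (N : ℕ) (hN : Fintype.card A = N) (hN3 : 3 ≤ N) (G : Finset A) (γ : ℝ) (hγ : 0 < γ)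
    (hG : γ * N ≤ G.card) (k M : ℕ) :
    ((univ.filter fun d : Fin k → A =>
      ∃ n : A, (univ.filter fun ε : Fin k → Fin 2 => n + ∑ i, (ε i : ℕ) • d i ∈ G).card < M).card : ℝ) ≤
      12 * (Real.log N + M) / (γ * 2 ^ k) * (N : ℝ) ^ k := by
  have hN0 : 0 < N := by omega
  have hNR : (0 : ℝ) < N := by exact_mod_cast hN0
  have hlog : 1 ≤ Real.log N := by
    rw [Real.le_log_iff_exp_le hNR]
    have h1 := Real.exp_one_lt_d9
    have h2 : (3 : ℝ) ≤ N := by exact_mod_cast hN3
    linarith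
  have hM0 : (0 : ℝ) ≤ M := by positivity
  obtain ⟨j, hj1, hj2⟩ := exists_pow (Real.log N + M) (by linarith)
  have hpk : (0 : ℝ) < 2 ^ k := by positivity
  have hγ1 : γ ≤ 1 := by
    have h1 : (G.card : ℝ) ≤ N := by
      have := card_le_univ G
      rw [hN] at this
      exact_mod_cast this
    by_contra hc
    rw [not_le] at hc
    nlinarith
  have htriv : ((univ.filter fun d : Fin k → A =>
      ∃ n : A, (univ.filter fun ε : Fin k → Fin 2 => n + ∑ i, (ε i : ℕ) • d i ∈ G).card < M).card : ℝ) ≤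
      (N : ℝ) ^ k := by
    have h1 : (univ.filter fun d : Fin k → A =>
      ∃ n : A, (univ.filter fun ε : Fin k → Fin 2 => n + ∑ i, (ε i : ℕ) • d i ∈ G).card < M).card ≤ N ^ k := by
      refine (card_le_univ _).trans ?_
      simp [hN]
    exact_mod_cast h1
  by_cases hkj : k < j
  · have h2 : (2 : ℝ) ^ k ≤ 2 ^ j := pow_le_pow_right₀ (by norm_num) hkj.le
    have h3 : 1 ≤ 12 * (Real.log N + M) / (γ * 2 ^ k) := by
      rw [le_div_iff₀ (by positivity)]
      have : γ * 2 ^ k ≤ 1 * (2 * (Real.log N + M)) :=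
        mul_le_mul hγ1 (by linarith) hpk.le (by norm_num)
      linarith
    have h4 : (0 : ℝ) ≤ (N : ℝ) ^ k := by positivity
    nlinarith
  · rw [not_lt] at hkj
    obtain ⟨i, rfl⟩ := Nat.exists_eq_add_of_le' hkj
    -- the weight
    set ρ : ℝ := Real.exp (-1) with hρ
    have hρ0 : 0 < ρ := Real.exp_pos _
    have hρ1 : ρ ≤ 1 / 2 := by
      rw [hρ, Real.exp_neg, inv_le_comm₀ (Real.exp_pos 1) (by norm_num)]
      have := Real.add_one_le_exp (1 : ℝ)
      norm_num
      linarith
    set w : A → ℝ := fun x => if x ∈ G then ρ else 1 with hw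
    have hW : IsW w := by
      intro x
      simp only [hw]
      split_ifs
      · exact ⟨hρ0.le, by linarith⟩
      · exact ⟨zero_le_one, le_rfl⟩
    have hmean : mean w = 1 - (1 - ρ) * (G.card / N) := by
      have h1 : ∀ x, w x = 1 - (1 - ρ) * (if x ∈ G then 1 else 0) := by
        intro x
        simp only [hw]
        split_ifs <;> ring
      unfold mean
      rw [hN, sum_congr rfl fun x _ => h1 x, sum_sub_distrib, ← mul_sum, sum_const, nsmul_eq_mul, card_univ, hN,
        sum_ite_mem, univ_inter, sum_const, nsmul_eq_mul]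
      field_simp
    have hgg : γ ≤ G.card / N := by
      rw [le_div_iff₀ hNR]
      exact hG
    have hm1 : mean w ≤ 1 - γ / 2 := by
      rw [hmean]
      nlinarith
    have hm2 : mean w < 1 := by linarith
    have hm0 : 0 ≤ mean w := div_nonneg (sum_nonneg fun x _ => (hW x).1) (by positivity)
    have hθ : 0 < ρ ^ M := pow_pos hρ0 M
    have hsub : (univ.filter fun d : Fin (i + j) → A =>
        ∃ n : A, (univ.filter fun ε : Fin (i + j) → Fin 2 => n + ∑ i, (ε i : ℕ) • d i ∈ G).card < M) ⊆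
        bad (ρ ^ M) (i + j) w := by
      intro d hd
      obtain ⟨n, hn⟩ := (mem_filter.1 hd).2
      refine mem_filter.2 ⟨mem_univ _, n, ?_⟩
      simp only [hw]
      rw [prod_ite, prod_const, prod_const_one, mul_one]
      exact pow_le_pow_of_le_one hρ0.le (by linarith) hn.le
    have h1 := phase_one N hN hN0 (ρ ^ M) hθ i j w hW hm2
    have hu : uu (N / ρ ^ M) j ≤ Real.exp 1 := by
      unfold uu
      rw [Real.rpow_def_of_pos (by positivity)]
      apply Real.exp_le_exp.2
      have e : Real.log (N / ρ ^ M) = Real.log N + M := by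
        rw [Real.log_div hNR.ne' hθ.ne', Real.log_pow, hρ, Real.log_exp]
        ring
      rw [e, one_div, inv_pow, ← div_eq_mul_inv, div_le_one (by positivity)]
      exact hj1
    have he := Real.exp_one_lt_d9
    have hu3 : uu (N / ρ ^ M) j ≤ 3 := by linarith
    have hf : mean w / (1 - mean w) ≤ 2 / γ := by
      rw [div_le_div_iff₀ (by linarith) hγ]
      nlinarith
    have hf0 : 0 ≤ mean w / (1 - mean w) := div_nonneg hm0 (by linarith)
    have h2 : uu (N / ρ ^ M) j * (mean w / (1 - mean w)) ≤ 3 * (2 / γ) :=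
      mul_le_mul hu3 hf hf0 (by norm_num)
    refine (Nat.cast_le.2 (card_le_card hsub)).trans (h1.trans ?_)
    have h3 : (0 : ℝ) ≤ (N : ℝ) ^ (i + j) := by positivity
    calc (N : ℝ) ^ (i + j) * (1 / 2) ^ i * (uu (N / ρ ^ M) j * (mean w / (1 - mean w)))
        ≤ (N : ℝ) ^ (i + j) * (1 / 2) ^ i * (3 * (2 / γ)) := mul_le_mul_of_nonneg_left h2 (by positivity)
      _ = 6 * 2 ^ j / (γ * 2 ^ (i + j)) * (N : ℝ) ^ (i + j) := by
          rw [pow_add (2 : ℝ), one_div, inv_pow]
          field_simp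
          ring
      _ ≤ _ := by
          refine mul_le_mul_of_nonneg_right ?_ h3
          refine div_le_div_of_nonneg_right ?_ (by positivity)
          linarith

end Pool.MP_7ba156_nt.HC
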