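import Pool.Agent.Lib_MP_7ba156_hc.Pair

/-!
# The density of the points with a prime less than `N` in the window of length `H` after them, `H ≤ log N`
-/

set_option autoImplicit false

namespace Pool.MP_7ba156_nt.HC

open Finset Filter

theorem sum_inv_sq (H : ℕ) (hH : 1 ≤ H) : ∑ d ∈ Icc 1 H, 1 / (d : ℝ) ^ 2 ≤ 2 - 1 / (H : ℝ) := by
  induction H, hH using Nat.le_induction with
  | base => norm_num
  | succ m hm ih =>
    rw [← insert_Icc_right_eq_Icc_add_one (by omega), sum_insert (by simp)]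
    have h0 : (0 : ℝ) < m := by exact_mod_cast hm
    have h1 : 1 / ((m + 1 : ℕ) : ℝ) ^ 2 ≤ 1 / m - 1 / ((m + 1 : ℕ) : ℝ) := by
      push_cast
      rw [div_sub_div _ _ (by positivity) (by positivity), div_le_div_iff₀ (by positivity) (by positivity)]
      nlinarith
    linarith

theorem sum_sg (H : ℕ) : ∑ h ∈ Icc 1 H, sg h ≤ 2 * H := by
  rcases Nat.eq_zero_or_pos H with rfl | hH
  · simp
  have h1 : ∀ h ∈ Icc 1 H, sg h = ∑ d ∈ Icc 1 H, if d ∣ h then 1 / (d : ℝ) else 0 := by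
    intro h hh
    rw [mem_Icc] at hh
    rw [sg, ← sum_filter]
    refine sum_congr ?_ fun _ _ => rfl
    ext d
    rw [Nat.mem_divisors, mem_filter, mem_Icc]
    constructor
    · rintro ⟨h2, h3⟩
      exact ⟨⟨Nat.pos_of_dvd_of_pos h2 (by omega), (Nat.le_of_dvd (by omega) h2).trans hh.2⟩, h2⟩
    · rintro ⟨_, h2⟩
      exact ⟨h2, by omega⟩
  rw [sum_congr rfl h1, sum_comm]
  have h2 : ∀ d ∈ Icc 1 H, (∑ h ∈ Icc 1 H, if d ∣ h then 1 / (d : ℝ) else 0) ≤ H * (1 / (d : ℝ) ^ 2) := by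
    intro d hd
    rw [mem_Icc] at hd
    have hd0 : (0 : ℝ) < d := by exact_mod_cast (by omega : 0 < d)
    rw [← sum_filter, sum_const, nsmul_eq_mul]
    have h3 : ((Icc 1 H).filter fun h => d ∣ h).card = H / d := by
      have := Nat.Ioc_filter_dvd_card_eq_div H d
      rw [← this]
      rfl
    rw [h3]
    have h4 : ((H / d : ℕ) : ℝ) ≤ H / d := Nat.cast_div_le
    calc ((H / d : ℕ) : ℝ) * (1 / (d : ℝ)) ≤ (H / d) * (1 / (d : ℝ)) :=
          mul_le_mul_of_nonneg_right h4 (by positivity)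
      _ = _ := by field_simp
  refine (sum_le_sum h2).trans ?_
  rw [← mul_sum]
  have h3 := sum_inv_sq H hH
  have h4 : (0 : ℝ) ≤ 1 / H := by positivity
  have h5 : (0 : ℝ) ≤ H := by positivity
  nlinarith

/-- the primes below `N` -/
def Pr (N : ℕ) : Finset ℕ := (range N).filter Nat.Prime

/-- the number of primes in the window -/
def X (N H m : ℕ) : ℕ := ((Pr N).filter fun p => m ≤ p ∧ p ≤ m + H).card

theorem card_Pr (N : ℕ) : (Pr N).card ≤ Nat.primeCounting N := by
  rw [Nat.primeCounting, Nat.primeCounting', Nat.count_eq_card_filter_range]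
  exact card_le_card (filter_subset_filter _ (range_subset_range.2 (Nat.le_succ N)))

theorem sum_X (N H : ℕ) : (H + 1) * (((Pr N).filter fun p => H ≤ p).card) ≤ ∑ m ∈ range N, X N H m := by
  have h1 : ∀ m ∈ range N, X N H m = ∑ p ∈ Pr N, if m ≤ p ∧ p ≤ m + H then 1 else 0 := by
    intro m _
    rw [X, card_filter]
  rw [sum_congr rfl h1, sum_comm, mul_comm, ← smul_eq_mul, ← sum_const]
  rw [sum_filter]
  refine sum_le_sum fun p hpP => ?_
  have hpN := mem_range.1 (mem_filter.1 hpP).1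
  split_ifs with hp
  · rw [← card_filter]
    have h2 : Icc (p - H) p ⊆ (range N).filter fun m => m ≤ p ∧ p ≤ m + H := by
      intro m hm
      rw [mem_Icc] at hm
      rw [mem_filter, mem_range]
      omega
    have h3 := card_le_card h2
    rw [Nat.card_Icc] at h3
    omega
  · exact Nat.zero_le _

theorem close_pairs (N H : ℕ) : (((Pr N) ×ˢ (Pr N)).filter fun u => u.1 ≤ u.2 + H ∧ u.2 ≤ u.1 + H).card ≤
    (Pr N).card + 2 * ∑ h ∈ Icc 1 H, (pairs h N).card := by
  have hsub : (((Pr N) ×ˢ (Pr N)).filter fun u => u.1 ≤ u.2 + H ∧ u.2 ≤ u.1 + H) ⊆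
      ((Pr N).image fun p => (p, p)) ∪
      (((Icc 1 H).biUnion fun h => (pairs h N).image fun p => (p, p + h)) ∪
      ((Icc 1 H).biUnion fun h => (pairs h N).image fun p => (p + h, p))) := by
    rintro ⟨p, q⟩ hu
    rw [mem_filter, mem_product] at hu
    obtain ⟨⟨hp, hq⟩, h1, h2⟩ := hu
    simp only at hp hq h1 h2
    have hp' := mem_filter.1 hp
    have hq' := mem_filter.1 hq
    rw [mem_union, mem_union]
    rcases lt_trichotomy p q with h | h | h
    · right; left
      rw [mem_biUnion]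
      refine ⟨q - p, mem_Icc.2 ⟨by omega, by omega⟩, mem_image.2 ⟨p, ?_, ?_⟩⟩
      · rw [pairs, mem_filter, Nat.add_sub_cancel' h.le]
        exact ⟨mem_range.2 (Nat.lt_succ_of_lt (mem_range.1 hp'.1)), hp'.2, hq'.2⟩
      · rw [Nat.add_sub_cancel' h.le]
    · left
      rw [mem_image]
      exact ⟨p, hp, by rw [h]⟩
    · right; right
      rw [mem_biUnion]
      refine ⟨p - q, mem_Icc.2 ⟨by omega, by omega⟩, mem_image.2 ⟨q, ?_, ?_⟩⟩
      · rw [pairs, mem_filter, Nat.add_sub_cancel' h.le]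
        exact ⟨mem_range.2 (Nat.lt_succ_of_lt (mem_range.1 hq'.1)), hq'.2, hp'.2⟩
      · rw [Nat.add_sub_cancel' h.le]
  refine (card_le_card hsub).trans ((card_union_le _ _).trans ?_)
  have e1 : ((Pr N).image fun p => (p, p)).card ≤ (Pr N).card := card_image_le
  have e2 : (((Icc 1 H).biUnion fun h => (pairs h N).image fun p => (p, p + h)) ∪
      ((Icc 1 H).biUnion fun h => (pairs h N).image fun p => (p + h, p))).card ≤
      2 * ∑ h ∈ Icc 1 H, (pairs h N).card := by
    refine (card_union_le _ _).trans ?_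
    have e3 : ((Icc 1 H).biUnion fun h => (pairs h N).image fun p => (p, p + h)).card ≤
        ∑ h ∈ Icc 1 H, (pairs h N).card :=
      card_biUnion_le.trans (sum_le_sum fun _ _ => card_image_le)
    have e4 : ((Icc 1 H).biUnion fun h => (pairs h N).image fun p => (p + h, p)).card ≤
        ∑ h ∈ Icc 1 H, (pairs h N).card :=
      card_biUnion_le.trans (sum_le_sum fun _ _ => card_image_le)
    omega
  omega

theorem sum_X_sq (N H : ℕ) : ∑ m ∈ range N, X N H m ^ 2 ≤
    (H + 1) * ((Pr N).card + 2 * ∑ h ∈ Icc 1 H, (pairs h N).card) := by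
  have h1 : ∀ m ∈ range N, X N H m ^ 2 =
      ∑ u ∈ (Pr N) ×ˢ (Pr N), if (m ≤ u.1 ∧ u.1 ≤ m + H) ∧ (m ≤ u.2 ∧ u.2 ≤ m + H) then 1 else 0 := by
    intro m _
    rw [X, sq, ← card_product, ← filter_product, card_filter]
  rw [sum_congr rfl h1, sum_comm]
  refine le_trans ?_ (Nat.mul_le_mul_left (H + 1) (close_pairs N H))
  rw [mul_comm, ← smul_eq_mul, ← sum_const, sum_filter]
  refine sum_le_sum fun u _ => ?_
  rw [← card_filter]
  split_ifs with hu
  · have h2 : ((range N).filter fun m => (m ≤ u.1 ∧ u.1 ≤ m + H) ∧ (m ≤ u.2 ∧ u.2 ≤ m + H)) ⊆ Icc (u.1 - H) u.1 := by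
      intro m hm
      rw [mem_filter] at hm
      rw [mem_Icc]
      omega
    have h3 := card_le_card h2
    rw [Nat.card_Icc] at h3
    omega
  · rw [nonpos_iff_eq_zero, card_eq_zero, filter_eq_empty_iff]
    intro m _ hm
    exact hu (by omega)

/-- the points with a prime less than `N` in their window -/
def GG (N H : ℕ) : Finset ℕ := (range N).filter fun m => ∃ p ∈ Icc m (m + H), p.Prime ∧ p < N

theorem cauchy (N H : ℕ) : (∑ m ∈ range N, (X N H m : ℝ)) ^ 2 ≤ (GG N H).card * ∑ m ∈ range N, (X N H m : ℝ) ^ 2 := by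
  have h1 : ∑ m ∈ range N, (X N H m : ℝ) = ∑ m ∈ GG N H, (X N H m : ℝ) := by
    refine (sum_subset (filter_subset _ _) fun m hm hm' => ?_).symm
    have h2 : X N H m = 0 := by
      rw [X, card_eq_zero, filter_eq_empty_iff]
      intro p hp hpm
      exact hm' (mem_filter.2 ⟨hm, p, mem_Icc.2 hpm, (mem_filter.1 hp).2, mem_range.1 (mem_filter.1 hp).1⟩)
    rw [h2, Nat.cast_zero]
  rw [h1]
  refine sq_sum_le_card_mul_sum_sq.trans ?_
  refine mul_le_mul_of_nonneg_left ?_ (by positivity)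
  exact sum_le_sum_of_subset_of_nonneg (filter_subset _ _) fun _ _ _ => by positivity

theorem count_low (N H : ℕ) (hN : 1 ≤ N) : Nat.primeCounting (N - 1) ≤ ((Pr N).filter fun p => H ≤ p).card + H := by
  rw [Nat.primeCounting, Nat.primeCounting', Nat.count_eq_card_filter_range, Nat.sub_add_cancel hN]
  have hsub : (range N).filter Nat.Prime ⊆ ((Pr N).filter fun p => H ≤ p) ∪ range H := by
    intro p hp
    by_cases h : p < H
    · exact mem_union_right _ (mem_range.2 h)
    · exact mem_union_left _ (mem_filter.2 ⟨hp, by omega⟩)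
  refine (card_le_card hsub).trans ((card_union_le _ _).trans ?_)
  rw [card_range]

theorem pi_up (n : ℕ) (hn : 2 ≤ n) : (Nat.primeCounting n : ℝ) * Real.log n ≤ 5 * n := by
  have hnR : (2 : ℝ) ≤ n := by exact_mod_cast hn
  have h1 := Chebyshev.pi_le_log4_mul_div (x := (n : ℝ)) (by linarith)
  rw [Nat.floor_natCast] at h1
  have hlog : 0 < Real.log n := Real.log_pos (by linarith)
  have hsq : Real.log √(n : ℝ) = Real.log n / 2 := Real.log_sqrt (by linarith)
  rw [hsq] at h1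
  have hs0 : 0 < √(n : ℝ) := Real.sqrt_pos.2 (by linarith)
  have h2 : Real.log n ≤ 2 * √(n : ℝ) - 2 := by
    have := Real.log_le_sub_one_of_pos hs0
    rw [hsq] at this
    linarith
  have h3 : √(n : ℝ) * √(n : ℝ) = n := Real.mul_self_sqrt (by linarith)
  have h4 : Real.log 4 < 1.4 := by
    have e : (4 : ℝ) = 2 ^ 2 := by norm_num
    rw [e, Real.log_pow]
    have := Real.log_two_lt_d9
    push_cast
    linarith
  have h5 : (Nat.primeCounting n : ℝ) * Real.log n ≤ (Real.log 4 * n / (Real.log n / 2) + √(n : ℝ)) * Real.log n :=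
    mul_le_mul_of_nonneg_right h1 hlog.le
  have h6 : (Real.log 4 * n / (Real.log n / 2) + √(n : ℝ)) * Real.log n = 2 * Real.log 4 * n + √(n : ℝ) * Real.log n := by
    field_simp
  rw [h6] at h5
  have h7 : √(n : ℝ) * Real.log n ≤ 2 * n := by nlinarith
  nlinarith

/-- **The density.** -/
theorem dens_large : ∃ c : ℝ, 0 < c ∧ ∃ N₀ : ℕ, ∀ N ≥ N₀, ∀ H : ℕ, (H : ℝ) ≤ Real.log N →
    c * (H + 1) * N ≤ (GG N H).card * Real.log N := by
  obtain ⟨C, hC, x₀, hpair⟩ := pair_upper
  have hlit : ∀ᶠ x : ℝ in atTop, Real.log x ^ 2 ≤ 1 / 20 * x := by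
    have h1 := (Real.isLittleO_pow_log_id_atTop (n := 2)).bound (show (0 : ℝ) < 1 / 20 by norm_num)
    filter_upwards [h1, eventually_ge_atTop 1] with x hx hx1
    rw [id, Real.norm_eq_abs, Real.norm_eq_abs, abs_of_nonneg (sq_nonneg _), abs_of_nonneg (by linarith)] at hx
    exact hx
  obtain ⟨M, hM⟩ := (eventually_atTop.1 hlit)
  refine ⟨1 / (4 * (5 + 4 * C)), by positivity, max (max x₀ 3) ⌈M⌉₊, fun N hN H hH => ?_⟩
  have hN3 : 3 ≤ N := le_trans (le_max_right _ _) (le_trans (le_max_left _ _) hN)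
  have hNx : x₀ ≤ N := le_trans (le_max_left _ _) (le_trans (le_max_left _ _) hN)
  have hNM : M ≤ N := (Nat.le_ceil M).trans (by exact_mod_cast (le_trans (le_max_right _ _) hN))
  have hNR : (3 : ℝ) ≤ N := by exact_mod_cast hN3
  set L : ℝ := Real.log N with hL
  have hL1 : 1 ≤ L := by
    rw [hL, Real.le_log_iff_exp_le (by linarith)]
    have := Real.exp_one_lt_d9
    linarith
  have hL2 : L ^ 2 ≤ 1 / 20 * N := hM N hNM
  have hH0 : (0 : ℝ) ≤ H := by positivity
  have hHN : H ≤ N := by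
    have : (H : ℝ) ≤ N := by nlinarith
    exact_mod_cast this
  -- lower bound for the first moment
  have s1 : (H + 1 : ℝ) * (N / (2 * L)) ≤ ∑ m ∈ range N, (X N H m : ℝ) := by
    have h1 := Chebyshev.pi_ge (N - 1)
    have h2 := count_low N H (by omega)
    have h3 := sum_X N H
    have hcast : (((N - 1 : ℕ) : ℝ)) = N - 1 := by
      rw [Nat.cast_sub (by omega)]; norm_num
    rw [hcast, sub_add_cancel, ← hL] at h1
    have hlogp : 0 < Real.log ((N : ℝ) - 1) := Real.log_pos (by linarith)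
    have hlogle : Real.log ((N : ℝ) - 1) ≤ L := Real.log_le_log (by linarith) (by linarith)
    have hl2 := Real.log_two_gt_d9
    have h4 : (N - 1 : ℝ) * Real.log 2 - L ≤ (Nat.primeCounting (N - 1) : ℝ) * L := by
      have h5 : (N - 1 : ℝ) * Real.log 2 - L ≤ (Nat.primeCounting (N - 1) : ℝ) * Real.log ((N : ℝ) - 1) := by
        rw [div_le_iff₀ hlogp] at h1
        exact h1
      refine h5.trans (mul_le_mul_of_nonneg_left hlogle (by positivity))
    have h2R : (Nat.primeCounting (N - 1) : ℝ) ≤ (((Pr N).filter fun p => H ≤ p).card : ℝ) + H := by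
      exact_mod_cast h2
    have h3R : (H + 1 : ℝ) * (((Pr N).filter fun p => H ≤ p).card : ℝ) ≤ ∑ m ∈ range N, (X N H m : ℝ) := by
      exact_mod_cast h3
    refine le_trans (mul_le_mul_of_nonneg_left ?_ (by linarith)) h3R
    rw [div_le_iff₀ (by linarith)]
    have h6 : (Nat.primeCounting (N - 1) : ℝ) * L ≤ ((((Pr N).filter fun p => H ≤ p).card : ℝ) + H) * L :=
      mul_le_mul_of_nonneg_right h2R (by linarith)
    have h7 : (H : ℝ) * L ≤ L ^ 2 := by nlinarith
    nlinarith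
  -- upper bound for the second moment
  have s2 : ∑ m ∈ range N, (X N H m : ℝ) ^ 2 ≤ (H + 1 : ℝ) * ((5 + 4 * C) * N / L) := by
    have h1 := sum_X_sq N H
    have h1R : ∑ m ∈ range N, (X N H m : ℝ) ^ 2 ≤
        (H + 1 : ℝ) * ((Pr N).card + 2 * ∑ h ∈ Icc 1 H, ((pairs h N).card : ℝ)) := by
      exact_mod_cast h1
    refine h1R.trans (mul_le_mul_of_nonneg_left ?_ (by linarith))
    have h2 : ((Pr N).card : ℝ) * L ≤ 5 * N := by
      have h3 := pi_up N (by omega)
      have h4 : ((Pr N).card : ℝ) ≤ Nat.primeCounting N := by exact_mod_cast card_Pr N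
      exact (mul_le_mul_of_nonneg_right h4 (by linarith)).trans h3
    have h3 : (∑ h ∈ Icc 1 H, ((pairs h N).card : ℝ)) * L ^ 2 ≤ 2 * C * N * H := by
      rw [sum_mul]
      have h4 : ∀ h ∈ Icc 1 H, ((pairs h N).card : ℝ) * L ^ 2 ≤ C * N * sg h := fun h hh =>
        hpair N hNx h (mem_Icc.1 hh).1
      refine (sum_le_sum h4).trans ?_
      rw [← mul_sum]
      have h7 := sum_sg H
      have h8 : 0 ≤ C * (N : ℝ) := by positivity
      nlinarith [mul_le_mul_of_nonneg_left h7 h8]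
    have h4 : (∑ h ∈ Icc 1 H, ((pairs h N).card : ℝ)) * L ≤ 2 * C * N := by
      have h5 : 2 * C * N * H ≤ 2 * C * N * L := mul_le_mul_of_nonneg_left hH (by positivity)
      have h6 : (∑ h ∈ Icc 1 H, ((pairs h N).card : ℝ)) * L * L ≤ 2 * C * N * L := by
        calc _ = (∑ h ∈ Icc 1 H, ((pairs h N).card : ℝ)) * L ^ 2 := by ring
          _ ≤ _ := h3.trans h5
      exact le_of_mul_le_mul_right h6 (by linarith)
    rw [le_div_iff₀ (by linarith)]
    linarith
  have hca := cauchy N H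
  have hg0 : (0 : ℝ) ≤ (GG N H).card := by positivity
  have h1 : ((H + 1 : ℝ) * (N / (2 * L))) ^ 2 ≤ (GG N H).card * ((H + 1 : ℝ) * ((5 + 4 * C) * N / L)) :=
    (pow_le_pow_left₀ (by positivity) s1 2).trans (hca.trans (mul_le_mul_of_nonneg_left s2 hg0))
  have hK : (0 : ℝ) < 5 + 4 * C := by positivity
  have h2 : 0 < (H + 1 : ℝ) * N / L := by positivity
  have h3 : ((H + 1 : ℝ) * (N / (2 * L))) ^ 2 = ((H + 1 : ℝ) * N / L) * (((H + 1 : ℝ) * N) / (4 * L)) := by
    field_simp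
    ring
  have h4 : (GG N H).card * ((H + 1 : ℝ) * ((5 + 4 * C) * N / L)) =
      ((H + 1 : ℝ) * N / L) * ((GG N H).card * (5 + 4 * C)) := by
    field_simp
  rw [h3, h4] at h1
  have h5 := le_of_mul_le_mul_left h1 h2
  rw [div_le_iff₀ (by linarith)] at h5
  rw [one_div, inv_mul_eq_div, div_mul_eq_mul_div, div_le_iff₀ (by positivity)]
  nlinarith

theorem dens : ∃ c : ℝ, 0 < c ∧ ∀ N : ℕ, 3 ≤ N → ∀ H : ℕ, (H : ℝ) ≤ Real.log N →
    c * (H + 1) * N ≤ (GG N H).card * Real.log N := by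
  obtain ⟨c, hc, N₀, h⟩ := dens_large
  refine ⟨min c (1 / (((N₀ : ℝ) + 1) * (N₀ + 1))), lt_min hc (by positivity), fun N hN H hH => ?_⟩
  have hNR : (3 : ℝ) ≤ N := by exact_mod_cast hN
  rcases le_or_gt N₀ N with h1 | h1
  · refine le_trans ?_ (h N h1 H hH)
    refine mul_le_mul_of_nonneg_right (mul_le_mul_of_nonneg_right (min_le_left _ _) (by positivity)) (by positivity)
  · have hL1 : 1 ≤ Real.log N := by
      rw [Real.le_log_iff_exp_le (by linarith)]
      have := Real.exp_one_lt_d9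
      linarith
    have hcard : 1 ≤ (GG N H).card := by
      rw [Nat.one_le_iff_ne_zero, Ne, card_eq_zero, ← Ne, ← nonempty_iff_ne_empty]
      exact ⟨2, mem_filter.2 ⟨mem_range.2 (by omega), 2, mem_Icc.2 ⟨le_rfl, by omega⟩, Nat.prime_two, by omega⟩⟩
    have h2 : (1 : ℝ) ≤ (GG N H).card := by exact_mod_cast hcard
    have h3 : (H : ℝ) ≤ N := hH.trans ((Real.log_le_sub_one_of_pos (by linarith)).trans (by linarith))
    have h4 : (N : ℝ) ≤ N₀ := by exact_mod_cast h1.le
    have h5 : min c (1 / (((N₀ : ℝ) + 1) * (N₀ + 1))) * (H + 1) * N ≤ 1 := by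
      have h6 : min c (1 / (((N₀ : ℝ) + 1) * (N₀ + 1))) ≤ 1 / (((N₀ : ℝ) + 1) * (N₀ + 1)) := min_le_right _ _
      have h7 : ((H : ℝ) + 1) * N ≤ ((N₀ : ℝ) + 1) * (N₀ + 1) :=
        mul_le_mul (by linarith) (by linarith) (by positivity) (by positivity)
      calc min c (1 / (((N₀ : ℝ) + 1) * (N₀ + 1))) * (H + 1) * N
          = min c (1 / (((N₀ : ℝ) + 1) * (N₀ + 1))) * ((H + 1) * N) := by ring
        _ ≤ 1 / (((N₀ : ℝ) + 1) * (N₀ + 1)) * (((N₀ : ℝ) + 1) * (N₀ + 1)) :=
            mul_le_mul h6 h7 (by positivity) (by positivity)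
        _ = 1 := by field_simp
    nlinarith

end Pool.MP_7ba156_nt.HC
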