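import Pool.Agent.Lib_MP_7ba156_hc.Cube
import Pool.Agent.Lib_MP_7ba156_hc.Dens

/-!
# Primes in every translate of almost every Hilbert cube of windows modulo `N`
-/

set_option autoImplicit false

namespace Pool.MP_7ba156_nt.HC

open Finset

/-- The number of `ε ∈ {0, 1} ^ k` such that one of the residues `n + ε₁ d₁ + ... + ε_k d_k + j`, `0 ≤ j ≤ H`, modulo `N` has a
representative in `[0, N)` which is a prime number. -/
noncomputable def windows (N H k : ℕ) (d : Fin k → ZMod N) (n : ZMod N) : ℕ :=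
  Nat.card {ε : Fin k → Fin 2 // ∃ j : ℕ, j ≤ H ∧ (n + ∑ i, (ε i : ℕ) • d i + (j : ZMod N)).val.Prime}

/-- For the tuple `(H + 1) 2 ^ i` there is a translate without primes if and only if some `(H + 1) 2 ^ k` consecutive residues
contain no prime. -/
theorem special (N H k : ℕ) :
    (∃ n : ZMod N, windows N H k (fun i : Fin k => (((H + 1) * 2 ^ (i : ℕ) : ℕ) : ZMod N)) n = 0) ↔
    ∃ n : ZMod N, ∀ j : ℕ, j < (H + 1) * 2 ^ k → ¬ (n + (j : ZMod N)).val.Prime := by
  have hsum : ∀ ε : Fin k → Fin 2, ∑ i, (ε i : ℕ) • (((H + 1) * 2 ^ (i : ℕ) : ℕ) : ZMod N) =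
      (((H + 1) * (finFunctionFinEquiv ε : ℕ) : ℕ) : ZMod N) := by
    intro ε
    rw [finFunctionFinEquiv_apply, mul_sum, Nat.cast_sum]
    refine sum_congr rfl fun i _ => ?_
    rw [nsmul_eq_mul, ← Nat.cast_mul]
    congr 1
    ring
  refine exists_congr fun n => ?_
  unfold windows
  rw [Nat.card_eq_fintype_card, Fintype.card_eq_zero_iff, isEmpty_subtype]
  constructor
  · intro hn j hj hp
    have hlt : j / (H + 1) < 2 ^ k := (Nat.div_lt_iff_lt_mul (by omega)).2 (by rw [mul_comm]; exact hj)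
    refine hn (finFunctionFinEquiv.symm ⟨j / (H + 1), hlt⟩) ⟨j % (H + 1), Nat.lt_succ_iff.1 (Nat.mod_lt _ (by omega)), ?_⟩
    rw [hsum, Equiv.apply_symm_apply, add_assoc, ← Nat.cast_add, Nat.div_add_mod]
    exact hp
  · rintro hn ε ⟨j, hj, hp⟩
    rw [hsum, add_assoc, ← Nat.cast_add] at hp
    refine hn _ ?_ hp
    have h1 : (finFunctionFinEquiv ε : ℕ) < 2 ^ k := (finFunctionFinEquiv ε).2
    calc (H + 1) * (finFunctionFinEquiv ε : ℕ) + j < (H + 1) * (finFunctionFinEquiv ε : ℕ) + (H + 1) := by omega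
      _ = (H + 1) * ((finFunctionFinEquiv ε : ℕ) + 1) := by ring
      _ ≤ _ := Nat.mul_le_mul_left _ h1

/-- **Almost all Hilbert cubes of windows.** -/
theorem almost_all : ∃ C : ℝ, 0 < C ∧ ∀ N : ℕ, 3 ≤ N → ∀ H : ℕ, (H : ℝ) ≤ Real.log N → ∀ k M : ℕ,
    (Nat.card {d : Fin k → ZMod N // ∃ n : ZMod N, windows N H k d n < M} : ℝ) ≤
      C * Real.log N * (Real.log N + M) / ((H + 1) * 2 ^ k) * (N : ℝ) ^ k := by
  obtain ⟨c, hc, hd⟩ := dens
  refine ⟨12 / c, by positivity, fun N hN H hH k M => ?_⟩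
  have : NeZero N := ⟨by omega⟩
  classical
  have hNR : (3 : ℝ) ≤ N := by exact_mod_cast hN
  have hlog : 0 < Real.log N := Real.log_pos (by linarith)
  set G : Finset (ZMod N) := univ.filter fun m => ∃ j : ℕ, j ≤ H ∧ (m + (j : ZMod N)).val.Prime with hG
  have hcard : Fintype.card (ZMod N) = N := ZMod.card N
  have hwin : ∀ (d : Fin k → ZMod N) (n : ZMod N), windows N H k d n =
      (univ.filter fun ε : Fin k → Fin 2 => n + ∑ i, (ε i : ℕ) • d i ∈ G).card := by
    intro d n
    unfold windows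
    rw [Nat.card_eq_fintype_card, Fintype.card_subtype]
    congr 1
    ext ε
    simp [hG]
  have hexc : Nat.card {d : Fin k → ZMod N // ∃ n : ZMod N, windows N H k d n < M} =
      (univ.filter fun d : Fin k → ZMod N =>
        ∃ n : ZMod N, (univ.filter fun ε : Fin k → Fin 2 => n + ∑ i, (ε i : ℕ) • d i ∈ G).card < M).card := by
    rw [Nat.card_eq_fintype_card, Fintype.card_subtype]
    congr 1
    ext d
    simp only [mem_filter, hwin]
  have hcomp : (GG N H).card ≤ G.card := by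
    refine card_le_card_of_injOn (fun m : ℕ => (m : ZMod N)) ?_ ?_
    · intro m hm
      obtain ⟨hmN, p, hp, hpp, hpN⟩ := mem_filter.1 (mem_coe.1 hm)
      rw [mem_Icc] at hp
      refine mem_coe.2 (mem_filter.2 ⟨mem_univ _, p - m, by omega, ?_⟩)
      rw [← Nat.cast_add, Nat.add_sub_cancel' hp.1, ZMod.val_natCast, Nat.mod_eq_of_lt hpN]
      exact hpp
    · intro a ha b hb hab
      have ha' := mem_range.1 (mem_filter.1 (mem_coe.1 ha)).1
      have hb' := mem_range.1 (mem_filter.1 (mem_coe.1 hb)).1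
      have h3 := congrArg ZMod.val hab
      simp only [ZMod.val_natCast] at h3
      rwa [Nat.mod_eq_of_lt ha', Nat.mod_eq_of_lt hb'] at h3
  have hg : ((GG N H).card : ℝ) ≤ G.card := by exact_mod_cast hcomp
  have h1 := hd N hN H hH
  have hγ : 0 < c * (H + 1) / Real.log N := by positivity
  have h2 := few_card N hcard hN G (c * (H + 1) / Real.log N) hγ (by
    refine le_trans ?_ hg
    rw [div_mul_eq_mul_div, div_le_iff₀ hlog]
    exact h1) k M
  rw [hexc]
  have h3 : 12 * (Real.log N + M) / (c * (H + 1) / Real.log N * 2 ^ k) * (N : ℝ) ^ k =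
      12 / c * Real.log N * (Real.log N + M) / ((H + 1) * 2 ^ k) * (N : ℝ) ^ k := by
    field_simp
  rw [h3] at h2
  convert h2

end Pool.MP_7ba156_nt.HC
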