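import Pool.Agent.Lib_MP_a95293_rc.SvU
import Pool.Agent.Lib_MP_a95293_rc.SvM

/-!
# Upper bound for the number of prime pairs with a given difference, uniform in the difference
-/

set_option autoImplicit false

namespace Pool.MP_7ba156_nt.HC

open Finset Pool.Agent.OmAP Pool.MP_a95293_nt.RC

/-- the sum of the reciprocals of the divisors -/
noncomputable def sg (h : ℕ) : ℝ := ∑ d ∈ h.divisors, 1 / (d : ℝ)

theorem one_le_sg {h : ℕ} (hh : 1 ≤ h) : 1 ≤ sg h := by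
  have h1 : (1 : ℝ) = ∑ d ∈ ({1} : Finset ℕ), 1 / (d : ℝ) := by simp
  rw [h1]
  refine sum_le_sum_of_subset_of_nonneg ?_ fun _ _ _ => by positivity
  intro d hd
  rw [mem_singleton] at hd
  rw [hd]
  exact Nat.mem_divisors.2 ⟨one_dvd _, by omega⟩

theorem prod_one_add_le {h : ℕ} (hh : 1 ≤ h) : ∏ p ∈ h.primeFactors, (1 + 1 / (p : ℝ)) ≤ sg h := by
  rw [prod_one_add]
  set g : Finset ℕ → ℕ := fun t => ∏ p ∈ t, p with hg
  have h1 : ∀ t ∈ h.primeFactors.powerset, ∏ p ∈ t, 1 / (p : ℝ) = 1 / ((g t : ℕ) : ℝ) := by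
    intro t _
    rw [hg]
    push_cast
    rw [prod_div_distrib, prod_const_one]
  have hinj : Set.InjOn g (h.primeFactors.powerset : Set (Finset ℕ)) := by
    intro t ht t' ht' e
    have h2 : ∀ u ∈ h.primeFactors.powerset, (g u).primeFactors = u := by
      intro u hu
      exact Nat.primeFactors_prod fun p hp => Nat.prime_of_mem_primeFactors (mem_powerset.1 hu hp)
    rw [← h2 t (mem_coe.1 ht), ← h2 t' (mem_coe.1 ht'), e]
  rw [sum_congr rfl h1, ← sum_image (f := fun d : ℕ => 1 / (d : ℝ)) hinj]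
  refine sum_le_sum_of_subset_of_nonneg ?_ fun _ _ _ => by positivity
  intro d hd
  obtain ⟨t, ht, rfl⟩ := mem_image.1 hd
  refine Nat.mem_divisors.2 ⟨?_, by omega⟩
  exact (prod_dvd_prod_of_subset _ _ _ (mem_powerset.1 ht)).trans (Nat.prod_primeFactors_dvd h)

theorem prod_sq (m : ℕ) (hm : 1 ≤ m) : ∏ n ∈ Icc 2 m, (1 - 1 / (n : ℝ) ^ 2) = ((m : ℝ) + 1) / (2 * m) := by
  induction m, hm using Nat.le_induction with
  | base => norm_num
  | succ m hm ih =>
    rw [← insert_Icc_right_eq_Icc_add_one (by omega), prod_insert (by simp), ih]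
    have : (0 : ℝ) < m := by exact_mod_cast hm
    push_cast
    field_simp
    ring

theorem half_le_prod (S : Finset ℕ) (hS : ∀ n ∈ S, 2 ≤ n) : 1 / 2 ≤ ∏ n ∈ S, (1 - 1 / (n : ℝ) ^ 2) := by
  set m : ℕ := S.sup id + 1 with hm
  have hsub : S ⊆ Icc 2 m := by
    intro n hn
    have : n ≤ S.sup id := Finset.le_sup (f := id) hn
    exact mem_Icc.2 ⟨hS n hn, by omega⟩
  have hfac : ∀ n ∈ Icc 2 m, 0 ≤ 1 - 1 / (n : ℝ) ^ 2 ∧ 1 - 1 / (n : ℝ) ^ 2 ≤ 1 := by
    intro n hn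
    have h2 : (2 : ℝ) ≤ n := by exact_mod_cast (mem_Icc.1 hn).1
    have h3 : 1 / (n : ℝ) ^ 2 ≤ 1 := by
      rw [div_le_one (by positivity)]
      nlinarith
    have h4 : 0 < 1 / (n : ℝ) ^ 2 := by positivity
    constructor <;> linarith
  have h1 := prod_sq m (by omega)
  have h2 : ∏ n ∈ Icc 2 m, (1 - 1 / (n : ℝ) ^ 2) ≤ ∏ n ∈ S, (1 - 1 / (n : ℝ) ^ 2) := by
    rw [← prod_sdiff hsub]
    refine mul_le_of_le_one_left (prod_nonneg fun n hn => (hfac n (hsub hn)).1) ?_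
    refine prod_le_one (fun n hn => (hfac n (mem_sdiff.1 hn).1).1) fun n hn => ?_
    exact (hfac n (mem_sdiff.1 hn).1).2
  refine le_trans ?_ h2
  rw [h1]
  have : (0 : ℝ) < m := by positivity
  rw [div_le_div_iff₀ (by norm_num) (by positivity)]
  linarith

theorem prod_ratio_le {h : ℕ} (hh : 1 ≤ h) (S : Finset ℕ) (hS : S ⊆ h.primeFactors) :
    ∏ p ∈ S, ((p : ℝ) / (p - 1)) ≤ 2 * sg h := by
  have hp2 : ∀ p ∈ h.primeFactors, (2 : ℝ) ≤ p := fun p hp => by
    exact_mod_cast (Nat.prime_of_mem_primeFactors hp).two_le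
  have h1 : ∏ p ∈ S, ((p : ℝ) / (p - 1)) ≤ ∏ p ∈ h.primeFactors, ((p : ℝ) / (p - 1)) := by
    rw [← prod_sdiff hS]
    have hge : ∀ p ∈ h.primeFactors, 1 ≤ (p : ℝ) / (p - 1) := by
      intro p hp
      have := hp2 p hp
      rw [one_le_div (by linarith)]
      linarith
    refine le_mul_of_one_le_left (prod_nonneg fun p hp => ?_) ?_
    · have := hge p (hS hp)
      linarith
    · have h2 : ∏ p ∈ h.primeFactors \ S, (1 : ℝ) ≤ ∏ p ∈ h.primeFactors \ S, ((p : ℝ) / (p - 1)) :=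
        prod_le_prod (fun _ _ => zero_le_one) fun p hp => hge p (mem_sdiff.1 hp).1
      rwa [prod_const_one] at h2
  have h3 : ∏ p ∈ h.primeFactors, ((p : ℝ) / (p - 1)) =
      (∏ p ∈ h.primeFactors, (1 + 1 / (p : ℝ))) / ∏ p ∈ h.primeFactors, (1 - 1 / (p : ℝ) ^ 2) := by
    rw [← prod_div_distrib]
    refine prod_congr rfl fun p hp => ?_
    have := hp2 p hp
    have h4 : (p : ℝ) - 1 ≠ 0 := by linarith
    have h5 : (p : ℝ) ^ 2 - 1 ≠ 0 := by nlinarith
    field_simp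
    ring
  have h4 := half_le_prod h.primeFactors fun n hn => (Nat.prime_of_mem_primeFactors hn).two_le
  rw [h3] at h1
  refine h1.trans ?_
  rw [div_le_iff₀ (by linarith)]
  have h5 := prod_one_add_le hh
  have h6 := one_le_sg hh
  nlinarith

/-- the forbidden classes -/
def cls (h p : ℕ) : Finset ℕ := {0, (p - h % p) % p}

theorem cls_sub (h : ℕ) {p : ℕ} (hp : 0 < p) : cls h p ⊆ range p := by
  intro t ht
  rw [cls, mem_insert, mem_singleton] at ht
  rcases ht with rfl | rfl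
  · exact mem_range.2 hp
  · exact mem_range.2 (Nat.mod_lt _ hp)

theorem cls_card_of_not {h p : ℕ} (hp : 0 < p) (hd : ¬ p ∣ h) : (cls h p).card = 2 := by
  rw [cls, card_insert_of_notMem, card_singleton]
  rw [mem_singleton]
  have h1 : h % p ≠ 0 := fun h0 => hd (Nat.dvd_of_mod_eq_zero h0)
  have h2 := Nat.mod_lt h hp
  rw [Nat.mod_eq_of_lt (by omega)]
  omega

theorem cls_card_of_dvd {h p : ℕ} (hd : p ∣ h) : (cls h p).card = 1 := by
  rw [cls, Nat.mod_eq_zero_of_dvd hd, Nat.sub_zero, Nat.mod_self]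
  simp

theorem cls_dvd {h p t : ℕ} (hp : 0 < p) (hc : t % p ∈ cls h p) : p ∣ t ∨ p ∣ t + h := by
  rw [cls, mem_insert, mem_singleton] at hc
  rcases hc with hc | hc
  · exact Or.inl (Nat.dvd_of_mod_eq_zero hc)
  · right
    have h2 : t ≡ p - h % p [MOD p] := hc
    have h3 : t + h ≡ (p - h % p) + h % p [MOD p] := h2.add (Nat.mod_modEq h p).symm
    rw [Nat.sub_add_cancel (Nat.mod_lt h hp).le] at h3
    exact (Nat.modEq_zero_iff_dvd).1 (h3.trans (by simp [Nat.ModEq]))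

theorem PP_prod : ∃ B : ℝ, 0 < B ∧ ∀ z : ℕ, 2 ≤ z → ∏ p ∈ PP 2 z, (1 - 1 / (p : ℝ)) ≤ B / Real.log z := by
  set S : Finset ℕ := (Icc 1 (2 * 2)).filter Nat.Prime with hS
  have hfac : ∀ p : ℕ, p.Prime → 0 < 1 - 1 / (p : ℝ) ∧ 1 - 1 / (p : ℝ) ≤ 1 := by
    intro p hp
    have h2 : (2 : ℝ) ≤ p := by exact_mod_cast hp.two_le
    have : 1 / (p : ℝ) ≤ 1 / 2 := one_div_le_one_div_of_le (by norm_num) h2
    have h3 : 0 < 1 / (p : ℝ) := by positivity
    constructor <;> linarith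
  have hP0 : 0 < ∏ p ∈ S, (1 - 1 / (p : ℝ)) :=
    prod_pos fun p hp => (hfac p (mem_filter.1 hp).2).1
  refine ⟨(∏ p ∈ S, (1 - 1 / (p : ℝ)))⁻¹, inv_pos.2 hP0, fun z hz => ?_⟩
  have h3 := mertens_up z hz
  have h4 : (∏ p ∈ S, (1 - 1 / (p : ℝ))) * ∏ p ∈ PP 2 z, (1 - 1 / (p : ℝ))
      ≤ ∏ p ∈ (Icc 1 z).filter Nat.Prime, (1 - 1 / (p : ℝ)) := by
    have hdis : Disjoint S (PP 2 z) := by
      rw [disjoint_left]
      intro p hp hp'
      have h5 := (mem_Icc.1 (mem_filter.1 hp).1).2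
      have h6 := (mem_PP.1 hp').1.1
      omega
    have hsub : (Icc 1 z).filter Nat.Prime ⊆ S ∪ PP 2 z := by
      intro p hp
      rw [mem_filter, mem_Icc] at hp
      by_cases h7 : p ≤ 2 * 2
      · exact mem_union_left _ (mem_filter.2 ⟨mem_Icc.2 ⟨hp.1.1, h7⟩, hp.2⟩)
      · exact mem_union_right _ (mem_PP.2 ⟨⟨by omega, hp.1.2⟩, hp.2⟩)
    have hprime : ∀ p ∈ S ∪ PP 2 z, p.Prime := by
      intro p hp
      rcases mem_union.1 hp with h | h
      · exact (mem_filter.1 h).2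
      · exact (mem_PP.1 h).2
    rw [← prod_union hdis, ← prod_sdiff hsub]
    refine mul_le_of_le_one_left (prod_nonneg fun p hp => (hfac p (hprime p (hsub hp))).1.le) ?_
    refine prod_le_one (fun p hp => (hfac p (hprime p (mem_sdiff.1 hp).1)).1.le) fun p hp => ?_
    exact (hfac p (hprime p (mem_sdiff.1 hp).1)).2
  rw [div_eq_mul_inv, inv_mul_eq_div, le_div_iff₀ hP0, mul_comm, ← one_div]
  exact h4.trans h3

theorem cls_prod {h : ℕ} (hh : 1 ≤ h) (z : ℕ) :
    ∏ p ∈ PP 2 z, (1 - ((cls h p).card : ℝ) / p) ≤ 2 * sg h * (∏ p ∈ PP 2 z, (1 - 1 / (p : ℝ))) ^ 2 := by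
  have hp5 : ∀ p ∈ PP 2 z, (5 : ℝ) ≤ p := by
    intro p hp
    have := (mem_PP.1 hp).1.1
    exact_mod_cast (by omega : 5 ≤ p)
  have h1 : ∏ p ∈ PP 2 z, (1 - ((cls h p).card : ℝ) / p) ≤
      ∏ p ∈ PP 2 z, ((1 - 1 / (p : ℝ)) ^ 2 * if p ∣ h then (p : ℝ) / (p - 1) else 1) := by
    refine prod_le_prod (fun p hp => ?_) fun p hp => ?_
    · have h5 := hp5 p hp
      have h6 : ((cls h p).card : ℝ) ≤ 2 := by
        by_cases hd : p ∣ h
        · rw [cls_card_of_dvd hd]; norm_num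
        · rw [cls_card_of_not (mem_PP.1 hp).2.pos hd]; norm_num
      have h7 : ((cls h p).card : ℝ) / p ≤ 1 := by
        rw [div_le_one (by linarith)]
        linarith
      linarith
    · have h5 := hp5 p hp
      by_cases hd : p ∣ h
      · rw [cls_card_of_dvd hd, if_pos hd]
        apply le_of_eq
        have h6 : (p : ℝ) - 1 ≠ 0 := by linarith
        push_cast
        field_simp
      · rw [cls_card_of_not (mem_PP.1 hp).2.pos hd, if_neg hd, mul_one]
        have h6 : 0 ≤ (1 / (p : ℝ)) ^ 2 := by positivity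
        have e : ((2 : ℕ) : ℝ) / p = 2 * (1 / p) := by push_cast; ring
        rw [e]
        nlinarith
  refine h1.trans ?_
  rw [prod_mul_distrib, prod_pow, mul_comm]
  refine mul_le_mul_of_nonneg_right ?_ (sq_nonneg _)
  rw [← prod_filter]
  exact prod_ratio_le hh _ fun p hp =>
    Nat.mem_primeFactors.2 ⟨(mem_PP.1 (mem_filter.1 hp).1).2, (mem_filter.1 hp).2, by omega⟩

/-- the number of primes `n ≤ x` such that `n + h` is prime -/
def pairs (h x : ℕ) : Finset ℕ := (range (x + 1)).filter fun n => n.Prime ∧ (n + h).Prime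

theorem pair_upper : ∃ C : ℝ, 0 < C ∧ ∃ x₀ : ℕ, ∀ x ≥ x₀, ∀ h : ℕ, 1 ≤ h →
    ((pairs h x).card : ℝ) * Real.log x ^ 2 ≤ C * x * sg h := by
  obtain ⟨Cs, hCs⟩ := sieve_count_up 2
  obtain ⟨B, hB0, hB⟩ := PP_prod
  set D : ℕ := Cs + 2 with hD
  have hD0 : (0 : ℝ) < D := by positivity
  refine ⟨4 * (2 * (D : ℝ)) ^ 2 + 16 * B ^ 2 * (2 * (D : ℝ)) ^ 2, by positivity, 2 ^ D, fun x hx h hh => ?_⟩
  have hx1 : 1 ≤ x := le_trans Nat.one_le_two_pow hx
  have hxR : (1 : ℝ) ≤ x := by exact_mod_cast hx1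
  obtain ⟨z, hz1, hz2⟩ : ∃ z : ℕ, z ^ D ≤ x ∧ x < (z + 1) ^ D := by
    set P : ℕ → Prop := fun z => z ^ D ≤ x with hP
    have h0 : P 0 := by simp only [hP, hD]; positivity
    refine ⟨Nat.findGreatest P x, Nat.findGreatest_spec (P := P) (Nat.zero_le x) h0, ?_⟩
    by_contra hc
    rw [not_lt] at hc
    have h1 : Nat.findGreatest P x + 1 ≤ x :=
      (Nat.le_self_pow (by omega) _).trans hc
    have h2 := Nat.le_findGreatest (P := P) h1 hc
    omega
  have hz : 2 ≤ z := by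
    by_contra hc
    have h1 : (z + 1) ^ D ≤ 2 ^ D := Nat.pow_le_pow_left (by omega) D
    omega
  have hzR : (2 : ℝ) ≤ z := by exact_mod_cast hz
  have hlz : 0 < Real.log z := Real.log_pos (by linarith)
  have hlx : Real.log x ≤ 2 * D * Real.log z := by
    have h1 : (x : ℝ) ≤ ((z : ℝ) + 1) ^ D := by exact_mod_cast hz2.le
    have h2 : Real.log x ≤ D * Real.log ((z : ℝ) + 1) := by
      rw [← Real.log_pow]
      exact Real.log_le_log (by linarith) h1
    have h3 : Real.log ((z : ℝ) + 1) ≤ 2 * Real.log z := by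
      have : Real.log ((z : ℝ) ^ 2) = 2 * Real.log z := by rw [Real.log_pow]; norm_num
      rw [← this]
      exact Real.log_le_log (by linarith) (by nlinarith)
    nlinarith
  have hlx0 : 0 ≤ Real.log x := Real.log_nonneg hxR
  have hlk : Real.log x ^ 2 ≤ (2 * (D : ℝ)) ^ 2 * Real.log z ^ 2 := by
    rw [← mul_pow]
    exact pow_le_pow_left₀ hlx0 hlx 2
  have hsv := hCs z (x + 1) hz (by
    calc z ^ Cs ≤ z ^ D := Nat.pow_le_pow_right (by omega) (by omega)
      _ ≤ x + 1 := by omega) (cls h) (fun p hp => by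
        refine ⟨?_, cls_sub h (mem_PP.1 hp).2.pos⟩
        by_cases hd : p ∣ h
        · rw [cls_card_of_dvd hd]; norm_num
        · rw [cls_card_of_not (mem_PP.1 hp).2.pos hd])
  have hsg := one_le_sg hh
  have hPz : ∏ p ∈ PP 2 z, (1 - ((cls h p).card : ℝ) / p) ≤ 2 * sg h * (B / Real.log z) ^ 2 := by
    refine (cls_prod hh z).trans (mul_le_mul_of_nonneg_left ?_ (by linarith))
    refine pow_le_pow_left₀ (prod_nonneg fun p hp => ?_) (hB z hz) 2
    have h2 : (2 : ℝ) ≤ p := by exact_mod_cast (mem_PP.1 hp).2.two_le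
    have : 1 / (p : ℝ) ≤ 1 / 2 := one_div_le_one_div_of_le (by norm_num) h2
    linarith
  have hcount : (pairs h x).card ≤ (z + 1) +
      ((range (x + 1)).filter fun t => ∀ p ∈ PP 2 z, t % p ∉ cls h p).card := by
    have hsub : pairs h x ⊆
        range (z + 1) ∪ (range (x + 1)).filter fun t => ∀ p ∈ PP 2 z, t % p ∉ cls h p := by
      intro n hn
      rw [pairs, mem_filter] at hn
      by_cases hnz : n < z + 1
      · exact mem_union_left _ (mem_range.2 hnz)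
      · refine mem_union_right _ (mem_filter.2 ⟨hn.1, fun p hp hc => ?_⟩)
        have hpp := mem_PP.1 hp
        have h2 := hpp.1.2
        rcases cls_dvd hpp.2.pos hc with hd | hd
        · have h1 := (Nat.prime_dvd_prime_iff_eq hpp.2 hn.2.1).1 hd
          omega
        · have h1 := (Nat.prime_dvd_prime_iff_eq hpp.2 hn.2.2).1 hd
          omega
    refine (card_le_card hsub).trans ((card_union_le _ _).trans ?_)
    rw [card_range]
  have hcR : ((pairs h x).card : ℝ) ≤ ((z : ℝ) + 1) + 4 * ((x : ℝ) + 1) * (2 * sg h * (B / Real.log z) ^ 2) := by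
    have h1 : ((pairs h x).card : ℝ) ≤ ((z : ℝ) + 1) +
        (((range (x + 1)).filter fun t => ∀ p ∈ PP 2 z, t % p ∉ cls h p).card : ℝ) := by
      exact_mod_cast hcount
    have h2 : 4 * (((x + 1 : ℕ) : ℝ)) * ∏ p ∈ PP 2 z, (1 - ((cls h p).card : ℝ) / p)
        ≤ 4 * ((x : ℝ) + 1) * (2 * sg h * (B / Real.log z) ^ 2) := by
      push_cast
      exact mul_le_mul_of_nonneg_left hPz (by linarith)
    linarith
  have hzx : (z : ℝ) * z ≤ x := by
    have h1 : z * z ≤ x := by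
      calc z * z = z ^ 2 := (sq z).symm
        _ ≤ z ^ D := Nat.pow_le_pow_right (by omega) (by omega)
        _ ≤ x := hz1
    exact_mod_cast h1
  have hlzk : Real.log z ^ 2 ≤ 2 * (z : ℝ) := by
    have h1 := Real.pow_div_factorial_le_exp (Real.log z) hlz.le 2
    rw [Real.exp_log (by linarith), div_le_iff₀ (by positivity)] at h1
    have e : ((Nat.factorial 2 : ℕ) : ℝ) = 2 := by norm_num [Nat.factorial]
    rw [e] at h1
    linarith
  have hlzk0 : 0 < Real.log z ^ 2 := pow_pos hlz 2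
  have hD2 : (0 : ℝ) < (2 * (D : ℝ)) ^ 2 := by positivity
  calc ((pairs h x).card : ℝ) * Real.log x ^ 2
      ≤ (((z : ℝ) + 1) + 4 * ((x : ℝ) + 1) * (2 * sg h * (B / Real.log z) ^ 2)) *
          ((2 * (D : ℝ)) ^ 2 * Real.log z ^ 2) :=
        mul_le_mul hcR hlk (by positivity) (by positivity)
    _ = ((z : ℝ) + 1) * ((2 * (D : ℝ)) ^ 2 * Real.log z ^ 2) +
          8 * ((x : ℝ) + 1) * (sg h * B ^ 2 * (2 * (D : ℝ)) ^ 2) := by field_simp; ring
    _ ≤ (2 * (z : ℝ)) * ((2 * (D : ℝ)) ^ 2 * (2 * (z : ℝ))) +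
          8 * (2 * (x : ℝ)) * (sg h * B ^ 2 * (2 * (D : ℝ)) ^ 2) := by
        refine add_le_add ?_ ?_
        · refine mul_le_mul (by linarith) (mul_le_mul_of_nonneg_left hlzk (by positivity))
            (by positivity) (by linarith)
        · refine mul_le_mul_of_nonneg_right (by linarith) (by positivity)
    _ = 4 * (2 * (D : ℝ)) ^ 2 * ((z : ℝ) * z) + 16 * B ^ 2 * (2 * (D : ℝ)) ^ 2 * x * sg h := by ring
    _ ≤ 4 * (2 * (D : ℝ)) ^ 2 * x * sg h + 16 * B ^ 2 * (2 * (D : ℝ)) ^ 2 * x * sg h := by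
        refine add_le_add ?_ le_rfl
        have h1 : 4 * (2 * (D : ℝ)) ^ 2 * ((z : ℝ) * z) ≤ 4 * (2 * (D : ℝ)) ^ 2 * x :=
          mul_le_mul_of_nonneg_left hzx (by positivity)
        refine h1.trans ?_
        exact le_mul_of_one_le_right (by positivity) hsg
    _ = _ := by ring

end Pool.MP_7ba156_nt.HC
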